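import Mathlib

/-! Automorphically equivalent commutative associative algebras need not be geometrically
equivalent. -/

namespace Pool.Agent.Results.MP_611bc7_al.AutNotGeom

open CategoryTheory

noncomputable section

/-- A commutative associative `k`-algebra, not necessarily unital. -/
structure Alg (k : Type) [Field k] where
  carrier : Type
  [ring : NonUnitalCommRing carrier]
  [mod : Module k carrier]
  [tower : IsScalarTower k carrier carrier]
  [comm : SMulCommClass k carrier carrier]

attribute [instance] Alg.ring Alg.mod Alg.tower Alg.comm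

/-- Homomorphisms of commutative associative `k`-algebras. -/
abbrev Hom {k : Type} [Field k] (A B : Alg k) : Type := A.carrier →ₙₐ[k] B.carrier

/-- The polynomials in the variables `X` with zero constant term. -/
def polys (k : Type) [Field k] (X : Finset ℕ) : NonUnitalSubalgebra k (MvPolynomial X k) where
  carrier := {p | MvPolynomial.constantCoeff p = 0}
  add_mem' := by
    intro p q hp hq
    simp only [Set.mem_ofPred_eq] at *
    rw [map_add, hp, hq, add_zero]
  zero_mem' := by simp
  mul_mem' := by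
    intro p q hp hq
    simp only [Set.mem_ofPred_eq] at *
    rw [map_mul, hp, hq, mul_zero]
  smul_mem' := by
    intro c p hp
    simp only [Set.mem_ofPred_eq] at *
    rw [MvPolynomial.constantCoeff_smul, hp, smul_zero]

/-- The free commutative associative `k`-algebra `F(X)`: the polynomials in the variables `X`
with zero constant term. -/
def F (k : Type) [Field k] (X : Finset ℕ) : Alg k where
  carrier := polys k X

/-- The objects of the category `Θ⁰`: the free algebras `F(X)` for finite `X ⊂ ℕ`. -/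
structure FreeObj (k : Type) [Field k] where
  vars : Finset ℕ

/-- The category `Θ⁰` of the free algebras `F(X)` and all homomorphisms. -/
instance (k : Type) [Field k] : Category (FreeObj k) where
  Hom X Y := Hom (F k X.vars) (F k Y.vars)
  id X := NonUnitalAlgHom.id k _
  comp f g := NonUnitalAlgHom.comp g f

/-- The value of a morphism of `Θ⁰`. -/
def ap {k : Type} [Field k] {X Y : FreeObj k} (μ : X ⟶ Y) (w : (F k X.vars).carrier) :
    (F k Y.vars).carrier :=
  (show Hom (F k X.vars) (F k Y.vars) from μ) w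

/-- The pairs of elements of an algebra. -/
abbrev Pairs {k : Type} [Field k] (A : Alg k) : Type := A.carrier × A.carrier

/-- `T''_H`: the intersection of the kernels of all `ν : F(X) → H` with `T ⊆ ker ν`. -/
def closure {k : Type} [Field k] (H : Alg k) (X : Finset ℕ) (T : Set (Pairs (F k X))) :
    Set (Pairs (F k X)) :=
  {p | ∀ ν : Hom (F k X) H, (∀ t ∈ T, ν t.1 = ν t.2) → ν p.1 = ν p.2}

/-- `Cl_H(F(X))`: the `H`-closed subsets `T` of `F(X) × F(X)`. -/
def Cl {k : Type} [Field k] (H : Alg k) (X : Finset ℕ) : Set (Set (Pairs (F k X))) :=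
  {T | T = closure H X T}

/-- Geometric equivalence. -/
def GeometricallyEquivalent {k : Type} [Field k] (H₁ H₂ : Alg k) : Prop :=
  ∀ X : Finset ℕ, Cl H₁ X = Cl H₂ X

/-- Two morphisms of `Θ⁰` with the same target agree modulo `T`. -/
def Agree {k : Type} [Field k] {X Y : FreeObj k} (μ₁ μ₂ : X ⟶ Y) (T : Set (Pairs (F k Y.vars))) :
    Prop :=
  ∀ w, (ap μ₁ w, ap μ₂ w) ∈ T

/-- Automorphic equivalence. -/
def AutomorphicallyEquivalent {k : Type} [Field k] (H₁ H₂ : Alg k) : Prop :=
  ∃ Φ Ψ : FreeObj k ⥤ FreeObj k, Φ ⋙ Ψ = 𝟭 _ ∧ Ψ ⋙ Φ = 𝟭 _ ∧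
    ∃ α : ∀ X : FreeObj k, Cl H₁ X.vars ≃ Cl H₂ (Φ.obj X).vars,
      ∀ (X₁ X₂ : FreeObj k) (μ₁ μ₂ : X₁ ⟶ X₂) (T : Cl H₁ X₂.vars),
        Agree μ₁ μ₂ T.1 ↔ Agree (Φ.map μ₁) (Φ.map μ₂) (α X₂ T).1

variable {k : Type} [Field k] (σ : k ≃+* k)

/-- The action of `σ` on the coefficients. -/
def sg0 {X : Finset ℕ} (p : polys k X) : polys k X :=
  ⟨MvPolynomial.map (σ : k →+* k) p.1, by
    have := p.2
    change MvPolynomial.constantCoeff p.1 = 0 at this
    change MvPolynomial.constantCoeff (MvPolynomial.map (σ : k →+* k) p.1) = 0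
    rw [MvPolynomial.constantCoeff_map, this, map_zero]⟩

lemma sg0_add {X : Finset ℕ} (p q : polys k X) : sg0 σ (p + q) = sg0 σ p + sg0 σ q := by
  ext1; simp [sg0]

lemma sg0_zero {X : Finset ℕ} : sg0 σ (0 : polys k X) = 0 := by
  ext1; simp [sg0]

lemma sg0_mul {X : Finset ℕ} (p q : polys k X) : sg0 σ (p * q) = sg0 σ p * sg0 σ q := by
  ext1; simp [sg0]

lemma sg0_smul {X : Finset ℕ} (c : k) (p : polys k X) : sg0 σ (c • p) = σ c • sg0 σ p := by
  ext1; simp [sg0, MvPolynomial.smul_eq_C_mul]

lemma sg0_symm_sg {X : Finset ℕ} (p : polys k X) : sg0 σ.symm (sg0 σ p) = p := by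
  ext1
  simp only [sg0, MvPolynomial.map_map]
  have : (σ.symm : k →+* k).comp (σ : k →+* k) = RingHom.id k := by
    ext x; simp
  rw [this, MvPolynomial.map_id]

/-- The action of `σ` on the free algebra. -/
def sg {X : Finset ℕ} (p : (F k X).carrier) : (F k X).carrier := sg0 σ p

lemma sg_add {X : Finset ℕ} (p q : (F k X).carrier) : sg σ (p + q) = sg σ p + sg σ q :=
  sg0_add σ p q

lemma sg_zero {X : Finset ℕ} : sg σ (0 : (F k X).carrier) = 0 :=
  sg0_zero σ

lemma sg_mul {X : Finset ℕ} (p q : (F k X).carrier) : sg σ (p * q) = sg σ p * sg σ q :=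
  sg0_mul σ p q

lemma sg_smul {X : Finset ℕ} (c : k) (p : (F k X).carrier) : sg σ (c • p) = σ c • sg σ p :=
  sg0_smul σ c p

lemma sg_symm_sg {X : Finset ℕ} (p : (F k X).carrier) : sg σ.symm (sg σ p) = p :=
  sg0_symm_sg σ p

lemma sg_sg_symm {X : Finset ℕ} (p : (F k X).carrier) : sg σ (sg σ.symm p) = p := by
  simpa using sg_symm_sg σ.symm p

/-- Conjugation of a homomorphism by the action on the coefficients. -/
def conj {X Y : Finset ℕ} (μ : Hom (F k X) (F k Y)) : Hom (F k X) (F k Y) where
  toFun w := sg σ (μ (sg σ.symm w))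
  map_smul' c w := by
    simp only [MonoidHom.id_apply]
    rw [sg_smul, map_smul, sg_smul, RingEquiv.apply_symm_apply]
  map_zero' := by rw [sg_zero, map_zero, sg_zero]
  map_add' p q := by rw [sg_add, map_add, sg_add]
  map_mul' p q := by rw [sg_mul, map_mul, sg_mul]

/-- The automorphism of `Θ⁰` given by `σ`. -/
def Fun : FreeObj k ⥤ FreeObj k where
  obj X := X
  map {X Y} μ := conj σ (show Hom (F k X.vars) (F k Y.vars) from μ)
  map_id X := by
    apply NonUnitalAlgHom.ext
    intro w
    exact sg_sg_symm σ w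
  map_comp {X Y Z} f g := by
    apply NonUnitalAlgHom.ext
    intro w
    change sg σ (_) = sg σ (_)
    change sg σ ((show Hom (F k Y.vars) (F k Z.vars) from g)
      ((show Hom (F k X.vars) (F k Y.vars) from f) (sg σ.symm w))) =
      sg σ ((show Hom (F k Y.vars) (F k Z.vars) from g) (sg σ.symm (sg σ
        ((show Hom (F k X.vars) (F k Y.vars) from f) (sg σ.symm w)))))
    rw [sg_symm_sg]

lemma alg_smul_mul (H : Alg k) (c : k) (x y : H.carrier) : (c • x) * y = c • (x * y) :=
  smul_mul_assoc c x y

lemma alg_mul_smul (H : Alg k) (c : k) (x y : H.carrier) : x * (c • y) = c • (x * y) :=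
  mul_smul_comm c x y

/-- The underlying set of `H`. -/
def Tw (_σ : k ≃+* k) (H : Alg k) : Type := H.carrier

instance (H : Alg k) : NonUnitalCommRing (Tw σ H) := inferInstanceAs (NonUnitalCommRing H.carrier)

instance (H : Alg k) : Module k (Tw σ H) := Module.compHom H.carrier (σ.symm : k →+* k)

lemma tw_smul (H : Alg k) (c : k) (x : Tw σ H) : c • x = (σ.symm c • (show H.carrier from x)) := rfl

instance (H : Alg k) : IsScalarTower k (Tw σ H) (Tw σ H) :=
  ⟨fun c x y => alg_smul_mul H (σ.symm c) x y⟩

instance (H : Alg k) : SMulCommClass k (Tw σ H) (Tw σ H) :=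
  ⟨fun c x y => (alg_mul_smul H (σ.symm c) x y).symm⟩

/-- The algebra `H` with the action of the scalars twisted by `σ⁻¹`. -/
def twist (H : Alg k) : Alg k where
  carrier := Tw σ H

/-- Transport of a homomorphism to `H` to one into the twisted algebra. -/
def up (H : Alg k) {X : Finset ℕ} (ν : Hom (F k X) H) : Hom (F k X) (twist σ H) where
  toFun w := ν (sg σ.symm w)
  map_smul' c w := by
    simp only [MonoidHom.id_apply]
    rw [sg_smul, map_smul]
    rfl
  map_zero' := by rw [sg_zero, map_zero]; rfl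
  map_add' p q := by rw [sg_add, map_add]; rfl
  map_mul' p q := by rw [sg_mul, map_mul]; rfl

/-- Transport of a homomorphism to the twisted algebra to one into `H`. -/
def down (H : Alg k) {X : Finset ℕ} (ν : Hom (F k X) (twist σ H)) : Hom (F k X) H where
  toFun w := ν (sg σ w)
  map_smul' c w := by
    simp only [MonoidHom.id_apply]
    rw [sg_smul, map_smul]
    change σ.symm (σ c) • (show H.carrier from ν (sg σ w)) = _
    rw [RingEquiv.symm_apply_apply]
  map_zero' := by rw [sg_zero, map_zero]; rfl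
  map_add' p q := by rw [sg_add, map_add]; rfl
  map_mul' p q := by rw [sg_mul, map_mul]; rfl

/-- The image of a set of pairs. -/
def im {X : Finset ℕ} (T : Set (Pairs (F k X))) : Set (Pairs (F k X)) :=
  {p | (sg σ.symm p.1, sg σ.symm p.2) ∈ T}

lemma im_closure (H : Alg k) {X : Finset ℕ} (T : Set (Pairs (F k X))) :
    im σ (closure H X T) = closure (twist σ H) X (im σ T) := by
  ext p
  constructor
  · intro hp ν hν
    have := hp (down σ H ν) (fun t ht => hν (sg σ t.1, sg σ t.2) (by
      change (sg σ.symm (sg σ t.1), sg σ.symm (sg σ t.2)) ∈ T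
      rw [sg_symm_sg, sg_symm_sg]; exact ht))
    change ν (sg σ (sg σ.symm p.1)) = ν (sg σ (sg σ.symm p.2)) at this
    rwa [sg_sg_symm, sg_sg_symm] at this
  · intro hp ν hν
    exact hp (up σ H ν) (fun t ht => hν (sg σ.symm t.1, sg σ.symm t.2) ht)

lemma im_im {X : Finset ℕ} (T : Set (Pairs (F k X))) : im σ.symm (im σ T) = T := by
  ext p
  change (sg σ.symm (sg σ.symm.symm p.1), sg σ.symm (sg σ.symm.symm p.2)) ∈ T ↔ _
  rw [sg_sg_symm, sg_sg_symm]

lemma im_im' {X : Finset ℕ} (T : Set (Pairs (F k X))) : im σ (im σ.symm T) = T := by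
  simpa using im_im σ.symm T

/-- The bijection between the closed sets. -/
def clEquiv (H : Alg k) (X : Finset ℕ) : Cl H X ≃ Cl (twist σ H) X where
  toFun T := ⟨im σ T.1, by
    change im σ T.1 = closure (twist σ H) X (im σ T.1)
    rw [← im_closure, ← show T.1 = closure H X T.1 from T.2]⟩
  invFun T := ⟨im σ.symm T.1, by
    change im σ.symm T.1 = closure H X (im σ.symm T.1)
    have h : T.1 = closure (twist σ H) X T.1 := T.2
    have h2 : im σ (im σ.symm T.1) = im σ (closure H X (im σ.symm T.1)) := by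
      rw [im_closure, im_im', ← h]
    have h3 := congrArg (im σ.symm) h2
    rwa [im_im, im_im] at h3⟩
  left_inv T := Subtype.ext (im_im σ T.1)
  right_inv T := Subtype.ext (im_im' σ T.1)

lemma fun_comp (σ : k ≃+* k) : Fun σ ⋙ Fun σ.symm = 𝟭 (FreeObj k) := by
  refine CategoryTheory.Functor.hext (fun X => rfl) (fun X Y f => heq_of_eq ?_)
  apply NonUnitalAlgHom.ext
  intro w
  change sg σ.symm (sg σ ((show Hom (F k X.vars) (F k Y.vars) from f)
    (sg σ.symm (sg σ.symm.symm w)))) = _
  rw [sg_symm_sg]
  exact congrArg (show Hom (F k X.vars) (F k Y.vars) from f) (sg_sg_symm σ.symm w)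

theorem aut_equiv (H : Alg k) : AutomorphicallyEquivalent H (twist σ H) := by
  refine ⟨Fun σ, Fun σ.symm, fun_comp σ, by simpa using fun_comp σ.symm,
    fun X => clEquiv σ H X.vars, ?_⟩
  intro X₁ X₂ μ₁ μ₂ T
  constructor
  · intro h w
    have := h (sg σ.symm w)
    change (sg σ.symm (sg σ (ap μ₁ (sg σ.symm w))), sg σ.symm (sg σ (ap μ₂ (sg σ.symm w)))) ∈ T.1
    rwa [sg_symm_sg, sg_symm_sg]
  · intro h w
    have := h (sg σ w)
    change (sg σ.symm (sg σ (ap μ₁ (sg σ.symm (sg σ w)))),
      sg σ.symm (sg σ (ap μ₂ (sg σ.symm (sg σ w))))) ∈ T.1 at this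
    rwa [sg_symm_sg, sg_symm_sg, sg_symm_sg] at this

instance : Fact (∀ r : ℚ, r ^ 2 ≠ 2 + 0 * r) := ⟨by
  intro r hr
  rw [zero_mul, add_zero] at hr
  have h : IsSquare (2 : ℚ) := ⟨r, by rw [← hr]; ring⟩
  have h2 : ¬ IsSquare ((2 : ℕ) : ℚ) := by
    rw [Rat.isSquare_natCast_iff]
    exact Nat.prime_two.prime.not_isSquare
  exact h2 (by exact_mod_cast h)⟩

/-- The field `ℚ(√2)`. -/
abbrev K : Type := QuadraticAlgebra ℚ 2 0

/-- The embedding of `ℚ(√2)` in the reals. -/
def emb : K →+* ℝ :=
  ((QuadraticAlgebra.lift (R := ℚ) (a := 2) (b := 0) (A := ℝ)) ⟨Real.sqrt 2, by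
    rw [Real.mul_self_sqrt (by norm_num)]; simp⟩ : K →ₐ[ℚ] ℝ)

lemma emb_omega : emb QuadraticAlgebra.omega = Real.sqrt 2 := by
  simp [emb, QuadraticAlgebra.lift]

/-- The nontrivial automorphism of `ℚ(√2)`. -/
def conjK : K ≃+* K := starRingAut

/-- The action of `ℚ(√2)` on the reals. -/
instance : Module K ℝ := Module.compHom ℝ emb

lemma smul_def' (c : K) (x : ℝ) : c • x = emb c * x := rfl

/-- The reals as an algebra over `ℚ(√2)`. -/
def H : Alg K where
  carrier := ℝ
  tower := ⟨fun c x y => by
    simp only [smul_eq_mul, smul_def']; ring⟩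
  comm := ⟨fun c x y => by
    simp only [smul_eq_mul, smul_def']; ring⟩

/-- Two variables. -/
def V : Finset ℕ := {0, 1}

/-- The first variable. -/
def x0 : (F K V).carrier := show polys K V from ⟨MvPolynomial.X ⟨0, by decide⟩, by
  change MvPolynomial.constantCoeff _ = 0
  simp⟩

/-- The second variable. -/
def x1 : (F K V).carrier := show polys K V from ⟨MvPolynomial.X ⟨1, by decide⟩, by
  change MvPolynomial.constantCoeff _ = 0
  simp⟩

/-- The equation `x₀² = √2 x₁²`. -/
def T : Set (Pairs (F K V)) := {(x0 * x0, (QuadraticAlgebra.omega : K) • (x1 * x1))}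

/-- The evaluation of polynomials at the point `(2^{1/4}, 1)`. -/
def ev0 : polys K V →ₙₐ[K] ℝ where
  toFun p := MvPolynomial.eval₂ emb (fun i => if i.1 = 0 then Real.sqrt (Real.sqrt 2) else 1) p.1
  map_smul' c p := by
    simp only [MonoidHom.id_apply]
    rw [smul_def', show ((c • p : polys K V)).1 = MvPolynomial.C c * p.1 from
      MvPolynomial.smul_eq_C_mul _ _, MvPolynomial.eval₂_mul, MvPolynomial.eval₂_C]
  map_zero' := by simp
  map_add' p q := by simp
  map_mul' p q := by simp

/-- The same, as a morphism of algebras. -/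
def ev : Hom (F K V) H := ev0

theorem not_geom : ¬ GeometricallyEquivalent H (twist conjK H) := by
  intro h
  have hV := h V
  -- the closure of `T` for `H`
  have h1 : closure H V T ∈ Cl H V := by
    apply Set.Subset.antisymm
    · intro p hp ν hν
      exact hν p hp
    · intro p hp ν hν
      exact hp ν (fun t ht => ht ν hν)
  rw [hV] at h1
  have h2 : (x1, (0 : (F K V).carrier)) ∈ closure (twist conjK H) V (closure H V T) := by
    intro ν hν
    have hT := hν (x0 * x0, (QuadraticAlgebra.omega : K) • (x1 * x1)) (fun μ hμ =>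
      hμ _ rfl)
    have e0 : ∀ (y : (F K V).carrier), (QuadraticAlgebra.omega : K) • ν y =
        (-(Real.sqrt 2 * (show ℝ from ν y)) : ℝ) := by
      intro y
      change emb (conjK.symm QuadraticAlgebra.omega) * _ = _
      have : conjK.symm (QuadraticAlgebra.omega : K) = - QuadraticAlgebra.omega := by
        rw [RingEquiv.symm_apply_eq]
        change _ = star _
        ext <;> simp
      rw [this, map_neg, emb_omega]
      exact neg_mul _ _
    have hT' : (show ℝ from ν x0) * (show ℝ from ν x0) =
        - (Real.sqrt 2 * ((show ℝ from ν x1) * (show ℝ from ν x1))) := by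
      have a1 := e0 (x1 * x1)
      rw [← map_smul] at a1
      have a2 : (show ℝ from ν (x1 * x1)) = (show ℝ from ν x1) * (show ℝ from ν x1) :=
        map_mul ν x1 x1
      have a3 : (show ℝ from ν (x0 * x0)) = (show ℝ from ν x0) * (show ℝ from ν x0) :=
        map_mul ν x0 x0
      rw [← a2, ← a3]
      exact hT.trans a1
    have h5 : (show ℝ from ν x1) = 0 := by
      have h6 : 0 < Real.sqrt 2 := Real.sqrt_pos.mpr (by norm_num)
      by_contra h7
      have h8 : 0 < (show ℝ from ν x1) * (show ℝ from ν x1) := mul_self_pos.mpr h7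
      nlinarith [mul_self_nonneg (show ℝ from ν x0), mul_pos h6 h8]
    rw [map_zero]
    exact h5
  have h3 : (x1, (0 : (F K V).carrier)) ∈ closure H V T := by
    rw [← show closure H V T = closure (twist conjK H) V (closure H V T) from h1] at h2
    exact h2
  have h4 := h3 ev (by
    intro t ht
    rw [Set.mem_singleton_iff.mp ht]
    have a1 : (show ℝ from ev (x0 * x0)) = Real.sqrt 2 := by
      change MvPolynomial.eval₂ _ _ (MvPolynomial.X _ * MvPolynomial.X _) = _
      simp
    have a2 : (show ℝ from ev ((QuadraticAlgebra.omega : K) • (x1 * x1))) = Real.sqrt 2 := by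
      rw [map_smul]
      change emb QuadraticAlgebra.omega *
        MvPolynomial.eval₂ _ _ (MvPolynomial.X _ * MvPolynomial.X _) = _
      rw [emb_omega]
      simp
    exact a1.trans a2.symm)
  have a1 : (show ℝ from ev x1) = 1 := by
    change MvPolynomial.eval₂ _ _ (MvPolynomial.X _) = _
    simp
  have a2 : (show ℝ from ev 0) = 0 := map_zero ev
  have a3 : (show ℝ from ev x1) = (show ℝ from ev 0) := h4
  rw [a1, a2] at a3
  exact one_ne_zero a3

instance : CharZero K := by
  refine ⟨fun m n h => ?_⟩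
  have := congrArg QuadraticAlgebra.re h
  simpa using this

/-- There are a field `k` of characteristic `0` and two commutative associative `k`-algebras that
are automorphically equivalent but not geometrically equivalent. -/
theorem result : ∃ (k : Type) (_ : Field k) (_ : CharZero k) (H₁ H₂ : Alg k),
    AutomorphicallyEquivalent H₁ H₂ ∧ ¬ GeometricallyEquivalent H₁ H₂ :=
  ⟨K, inferInstance, inferInstance, H, twist conjK H, aut_equiv conjK H, not_geom⟩

end

end Pool.Agent.Results.MP_611bc7_al.AutNotGeom
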